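import Pool.Agent.H498R2.KlField

/-! The `L`-function of `ψ(a / x - a / (x + c) + b x)`. -/

set_option autoImplicit false
set_option linter.all false

namespace Pool.Agent.Y807.WB

open Polynomial Finset IntermediateField
open Pool.Agent.H341R2.Sharp Pool.Agent.H498R2.Kl

section Trace

variable {F E : Type*} [Field F] [Field E] [Algebra F E] [FiniteDimensional F E]
  [Algebra.IsSeparable F E]

theorem sum_inv_roots (P : F[X]) (d : F) (h0 : P.eval (-d) ≠ 0) :
    ((P.aroots (AlgebraicClosure F)).map fun z => (z + algebraMap F (AlgebraicClosure F) d)⁻¹).sum =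
      - algebraMap F (AlgebraicClosure F) (P.derivative.eval (-d) / P.eval (-d)) := by
  let Ω := AlgebraicClosure F
  have hsplit : (P.map (algebraMap F Ω)).Splits := IsAlgClosed.splits _
  have h1 : (P.map (algebraMap F Ω)).eval (algebraMap F Ω (-d)) = algebraMap F Ω (P.eval (-d)) := by
    rw [eval_map_algebraMap, aeval_algebraMap_apply]
    rfl
  have h1' : (P.map (algebraMap F Ω)).eval (algebraMap F Ω (-d)) ≠ 0 := by
    rw [h1]
    exact (_root_.map_ne_zero _).2 h0
  have h2 := hsplit.eval_derivative_div_eval_of_ne_zero h1'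
  have h3 : (P.map (algebraMap F Ω)).derivative.eval (algebraMap F Ω (-d)) =
      algebraMap F Ω (P.derivative.eval (-d)) := by
    rw [derivative_map, eval_map_algebraMap, aeval_algebraMap_apply]
    rfl
  rw [h1, h3, ← map_div₀] at h2
  rw [h2]
  change _ = - ((P.aroots Ω).map fun z => 1 / (algebraMap F Ω (-d) - z)).sum
  rw [← Multiset.sum_map_neg']
  rw [Multiset.map_map]
  congr 1
  apply Multiset.map_congr rfl
  intro z _
  rw [Function.comp, one_div, ← inv_neg, map_neg]
  congr 1
  ring

theorem trace_genW (x : E) (c : F) (hx0 : x ≠ 0) (hxc : x + algebraMap F E c ≠ 0) (a b : F) :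
    Algebra.trace F F⟮x⟯ (algebraMap F F⟮x⟯ a * (AdjoinSimple.gen F x)⁻¹ -
      algebraMap F F⟮x⟯ a * (AdjoinSimple.gen F x + algebraMap F F⟮x⟯ c)⁻¹ +
      algebraMap F F⟮x⟯ b * AdjoinSimple.gen F x) =
      -(a * ((minpoly F x).derivative.eval 0 / (minpoly F x).eval 0)) +
        a * ((minpoly F x).derivative.eval (-c) / (minpoly F x).eval (-c)) -
        b * (minpoly F x).nextCoeff := by
  classical
  set P := minpoly F x with hP
  let Ω := AlgebraicClosure F
  have hx : IsIntegral F x := Algebra.IsIntegral.isIntegral x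
  have : Algebra.IsSeparable F F⟮x⟯ := Algebra.isSeparable_tower_bot_of_isSeparable F F⟮x⟯ E
  have hmon : P.Monic := minpoly.monic hx
  have hPd : ∀ d : F, x + algebraMap F E d ≠ 0 → P.eval (-d) ≠ 0 := by
    intro d hd h
    have h1 := minpoly.root hx (y := -d) (by rw [IsRoot.def]; exact h)
    apply hd
    rw [← h1, map_neg, neg_add_cancel]
  have hsplit : (P.map (algebraMap F Ω)).Splits := IsAlgClosed.splits _
  apply (algebraMap F Ω).injective
  rw [trace_eq_sum_embeddings (E := Ω)]
  have h1 : ∀ σ : F⟮x⟯ →ₐ[F] Ω, σ (algebraMap F F⟮x⟯ a * (AdjoinSimple.gen F x)⁻¹ -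
      algebraMap F F⟮x⟯ a * (AdjoinSimple.gen F x + algebraMap F F⟮x⟯ c)⁻¹ +
      algebraMap F F⟮x⟯ b * AdjoinSimple.gen F x) =
      algebraMap F Ω a * (σ (AdjoinSimple.gen F x) + algebraMap F Ω 0)⁻¹ -
        algebraMap F Ω a * (σ (AdjoinSimple.gen F x) + algebraMap F Ω c)⁻¹ +
        algebraMap F Ω b * (σ (AdjoinSimple.gen F x)) := by
    intro σ
    rw [map_add, map_sub, map_mul, map_mul, map_mul, map_inv₀, map_inv₀, map_add,
      AlgHom.commutes, AlgHom.commutes, AlgHom.commutes, map_zero, add_zero]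
  simp_rw [h1]
  rw [sum_emb x (fun z => algebraMap F Ω a * (z + algebraMap F Ω 0)⁻¹ -
    algebraMap F Ω a * (z + algebraMap F Ω c)⁻¹ + algebraMap F Ω b * z)]
  rw [Multiset.sum_map_add, Multiset.sum_map_sub, Multiset.sum_map_mul_left,
    Multiset.sum_map_mul_left, Multiset.sum_map_mul_left]
  have e1 : ((P.aroots Ω).map fun z => z).sum = - algebraMap F Ω P.nextCoeff := by
    rw [Multiset.map_id']
    have h2 := hsplit.nextCoeff_eq_neg_sum_roots_of_monic (hmon.map _)
    rw [nextCoeff_map (algebraMap F Ω).injective] at h2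
    rw [h2, neg_neg]
  have e2 := sum_inv_roots P 0 (hPd 0 (by rw [map_zero, add_zero]; exact hx0))
  have e3 := sum_inv_roots P c (hPd c hxc)
  rw [e1, e2, e3]
  simp only [neg_zero, map_sub, map_add, map_neg, map_mul]
  ring

theorem trace_W (x : E) (c : F) (hx0 : x ≠ 0) (hxc : x + algebraMap F E c ≠ 0) (a b : F) :
    Algebra.trace F E (algebraMap F E a * x⁻¹ - algebraMap F E a * (x + algebraMap F E c)⁻¹ +
      algebraMap F E b * x) =
      (Module.finrank F E / (minpoly F x).natDegree) •
      (-(a * ((minpoly F x).derivative.eval 0 / (minpoly F x).eval 0)) +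
        a * ((minpoly F x).derivative.eval (-c) / (minpoly F x).eval (-c)) -
        b * (minpoly F x).nextCoeff) := by
  have h1 : algebraMap F E a * x⁻¹ - algebraMap F E a * (x + algebraMap F E c)⁻¹ +
      algebraMap F E b * x =
      algebraMap F⟮x⟯ E (algebraMap F F⟮x⟯ a * (AdjoinSimple.gen F x)⁻¹ -
      algebraMap F F⟮x⟯ a * (AdjoinSimple.gen F x + algebraMap F F⟮x⟯ c)⁻¹ +
      algebraMap F F⟮x⟯ b * AdjoinSimple.gen F x) := by
    rw [map_add, map_sub, map_mul, map_mul, map_mul, map_inv₀, map_inv₀, map_add,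
      AdjoinSimple.algebraMap_gen,
      ← IsScalarTower.algebraMap_apply, ← IsScalarTower.algebraMap_apply,
      ← IsScalarTower.algebraMap_apply]
  rw [h1, ← Algebra.trace_trace (S := F⟮x⟯), Algebra.trace_algebraMap, map_nsmul,
    trace_genW x c hx0 hxc, (finrank_div x).1]

end Trace

section Lam

variable {F : Type*} [Field F] [Fintype F] [DecidableEq F]

/-- the multiplicative function on monic polynomials attached to the sum -/
noncomputable def lamW (ψ : AddChar F ℂ) (a c b : F) (h : F[X]) : ℂ :=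
  if h.eval 0 = 0 ∨ h.eval (-c) = 0 then 0 else
    ψ (-(a * (h.derivative.eval 0 / h.eval 0)) +
      a * (h.derivative.eval (-c) / h.eval (-c)) - b * h.nextCoeff)

theorem lamW_mult (ψ : AddChar F ℂ) (a c b : F) : Mult (lamW ψ a c b) := by
  constructor
  · unfold lamW
    rw [if_neg (by simp)]
    have h1 : (1 : F[X]).nextCoeff = 0 := by simp [nextCoeff]
    rw [h1]
    simp
  · intro g h hg hh
    unfold lamW
    by_cases h1 : g.eval 0 = 0 ∨ g.eval (-c) = 0
    · rw [if_pos h1, zero_mul, if_pos]
      rw [eval_mul, eval_mul]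
      rcases h1 with h1 | h1
      · left; rw [h1, zero_mul]
      · right; rw [h1, zero_mul]
    by_cases h2 : h.eval 0 = 0 ∨ h.eval (-c) = 0
    · rw [if_pos h2, mul_zero, if_pos]
      rw [eval_mul, eval_mul]
      rcases h2 with h2 | h2
      · left; rw [h2, mul_zero]
      · right; rw [h2, mul_zero]
    rw [if_neg h1, if_neg h2]
    push Not at h1 h2
    rw [if_neg]
    swap
    · rw [eval_mul, eval_mul]
      push Not
      exact ⟨mul_ne_zero h1.1 h2.1, mul_ne_zero h1.2 h2.2⟩
    rw [← AddChar.map_add_eq_mul, hg.nextCoeff_mul hh]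
    congr 1
    simp only [derivative_mul, eval_mul, eval_add]
    have e1 := h1.1
    have e2 := h1.2
    have e3 := h2.1
    have e4 := h2.2
    field_simp
    ring

theorem TW_eq_sum {E : Type*} [Field E] [Fintype E] [DecidableEq E] [Algebra F E]
    (ψ : AddChar F ℂ) (a c b : F) :
    TG (lamW ψ a c b) (Module.finrank F E) =
      ∑ x : E, if x = 0 ∨ x + algebraMap F E c = 0 then 0 else
        ψ (Algebra.trace F E (algebraMap F E a * x⁻¹ -
          algebraMap F E a * (x + algebraMap F E c)⁻¹ + algebraMap F E b * x)) := by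
  classical
  set m := Module.finrank F E with hm
  have hm0 : 0 < m := Module.finrank_pos
  unfold TG
  have h1 : ∀ x ∈ (univ : Finset E), minpoly F x ∈ (Irr F m).filter (fun P => P.natDegree ∣ m) := by
    intro x _
    have hx : IsIntegral F x := Algebra.IsIntegral.isIntegral x
    rw [mem_filter, mem_Irr]
    refine ⟨⟨minpoly.monic hx, minpoly.irreducible hx, Nat.le_of_dvd hm0 (finrank_div x).2⟩,
      (finrank_div x).2⟩
  rw [← sum_fiberwise_of_maps_to h1]
  apply sum_congr rfl
  intro P hP
  rw [mem_filter, mem_Irr] at hP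
  obtain ⟨⟨hmon, hirr, _⟩, hdvd⟩ := hP
  have h2 : ∀ x ∈ univ.filter (fun x : E => minpoly F x = P),
      (if x = 0 ∨ x + algebraMap F E c = 0 then (0 : ℂ) else
        ψ (Algebra.trace F E (algebraMap F E a * x⁻¹ -
          algebraMap F E a * (x + algebraMap F E c)⁻¹ + algebraMap F E b * x))) =
      lamW ψ a c b P ^ (m / P.natDegree) := by
    intro x hx
    rw [mem_filter] at hx
    have hxi : IsIntegral F x := Algebra.IsIntegral.isIntegral x
    have hroot : ∀ d : F, P.eval (-d) = 0 ↔ x + algebraMap F E d = 0 := by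
      intro d
      constructor
      · intro h
        rw [← hx.2] at h
        have h1 := minpoly.root hxi (y := -d) (by rw [IsRoot.def]; exact h)
        rw [← h1, map_neg, neg_add_cancel]
      · intro h
        have h1 : x = algebraMap F E (-d) := by
          rw [map_neg]
          exact eq_neg_of_add_eq_zero_left h
        rw [← hx.2, h1, minpoly.eq_X_sub_C]
        simp
    have hr0 : P.eval 0 = 0 ↔ x = 0 := by
      have := hroot 0
      rwa [neg_zero, map_zero, add_zero] at this
    have hpos : m / P.natDegree ≠ 0 := by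
      have : 0 < (minpoly F x).natDegree := minpoly.natDegree_pos hxi
      rw [hx.2] at this
      exact (Nat.div_pos (Nat.le_of_dvd hm0 hdvd) this).ne'
    unfold lamW
    by_cases h0 : x = 0 ∨ x + algebraMap F E c = 0
    · rw [if_pos h0, if_pos, zero_pow hpos]
      rw [hr0, hroot c]
      exact h0
    · rw [if_neg h0, if_neg]
      · push Not at h0
        rw [trace_W x c h0.1 h0.2, AddChar.map_nsmul_eq_pow, hx.2]
      · rw [hr0, hroot c]
        exact h0
  rw [sum_congr rfl h2, sum_const, nsmul_eq_mul]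
  congr 2
  have h3 : univ.filter (fun x : E => minpoly F x = P) = (P.rootSet E).toFinset := by
    ext x
    rw [mem_filter, Set.mem_toFinset, mem_rootSet]
    constructor
    · rintro ⟨_, rfl⟩
      exact ⟨hmon.ne_zero, minpoly.aeval F x⟩
    · rintro ⟨_, h⟩
      exact ⟨mem_univ _, (minpoly.eq_of_irreducible_of_monic hirr h hmon).symm⟩
  have hsplit : (P.map (algebraMap F E)).Splits := by
    have h4 : P ∣ X ^ (Nat.card F) ^ m - X :=
      (hirr.natDegree_dvd_iff_dvd_X_pow_card_pow_sub_X).1 hdvd
    have h5 : (P.map (algebraMap F E)) ∣ (X ^ (Nat.card F) ^ m - X : E[X]) := by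
      have := Polynomial.map_dvd (algebraMap F E) h4
      simpa using this
    have hcard : (Nat.card F) ^ m = Fintype.card E := by
      rw [Nat.card_eq_fintype_card, Module.card_eq_pow_finrank (K := F) (V := E)]
    rw [hcard] at h5
    have h6 : (X ^ Fintype.card E - X : E[X]).Splits := by
      rw [splits_iff_card_roots, FiniteField.roots_X_pow_card_sub_X,
        FiniteField.X_pow_card_sub_X_natDegree_eq _ Fintype.one_lt_card]
      rfl
    exact h6.of_dvd (FiniteField.X_pow_card_sub_X_ne_zero _ Fintype.one_lt_card) h5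
  rw [h3, Set.toFinset_card, card_rootSet_eq_natDegree (PerfectField.separable_of_irreducible hirr)
    hsplit]

/-- the shift -/
noncomputable def gW (c s : F) : F[X] := C s * (X * (X + C c) ^ 2)

theorem gW_degree (c s : F) (n : ℕ) (hn : 4 ≤ n) : (gW c s).degree < n := by
  have h1 : (X * (X + C c) ^ 2 : F[X]).natDegree ≤ 3 := by
    refine (natDegree_mul_le).trans ?_
    have h2 : ((X + C c) ^ 2 : F[X]).natDegree ≤ 2 := by
      refine (natDegree_pow_le).trans ?_
      rw [natDegree_X_add_C]
    have h3 : (X : F[X]).natDegree ≤ 1 := natDegree_X_le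
    omega
  have h4 : (gW c s).natDegree ≤ 3 := (natDegree_C_mul_le _ _).trans h1
  refine (degree_le_natDegree).trans_lt ?_
  exact_mod_cast (by omega : (gW c s).natDegree < n)

/-- vanishing in degree at least five -/
theorem AW_eq_zero {ψ : AddChar F ℂ} (hψ : ψ.IsPrimitive) {a c : F} (ha : a ≠ 0) (hc : c ≠ 0) (b : F)
    (n : ℕ) (hn : 5 ≤ n) : AG (lamW ψ a c b) n = 0 := by
  classical
  have key : ∀ (s : F) (h : F[X]), h ∈ Mon F n → h + gW c s ∈ Mon F n := by
    intro s h hh
    rw [mem_Mon] at hh ⊢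
    have hdeg : (gW c s).degree < h.degree := by
      rw [degree_eq_natDegree hh.1.ne_zero, hh.2]
      exact gW_degree c s n (by omega)
    refine ⟨hh.1.add_of_left hdeg, ?_⟩
    rw [natDegree_add_eq_left_of_degree_lt hdeg, hh.2]
  have hneg : ∀ s : F, gW c (-s) = - gW c s := by
    intro s
    unfold gW
    rw [C_neg]
    ring
  have hperm : ∀ s : F, ∑ h ∈ Mon F n, lamW ψ a c b h = ∑ h ∈ Mon F n, lamW ψ a c b (h + gW c s) := by
    intro s
    symm
    refine sum_bij' (fun h _ => h + gW c s) (fun h _ => h + gW c (-s))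
      (fun h hh => key s h hh) (fun h hh => key (-s) h hh) ?_ ?_ ?_
    · intro h _
      simp [hneg]
    · intro h _
      simp [hneg]
    · intro h _
      rfl
  have hval : ∀ (s : F) (h : F[X]), h ∈ Mon F n → lamW ψ a c b (h + gW c s) =
      lamW ψ a c b h * ψ (s * (-(a * c ^ 2 / h.eval 0))) := by
    intro s h hh
    rw [mem_Mon] at hh
    have hdeg : (gW c s).degree < h.degree := by
      rw [degree_eq_natDegree hh.1.ne_zero, hh.2]
      exact gW_degree c s n (by omega)
    have hnd : (h + gW c s).natDegree = n := by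
      rw [natDegree_add_eq_left_of_degree_lt hdeg, hh.2]
    have e0 : (h + gW c s).eval 0 = h.eval 0 := by
      simp [gW]
    have e1 : (h + gW c s).eval (-c) = h.eval (-c) := by
      simp [gW]
    have e2 : (h + gW c s).nextCoeff = h.nextCoeff := by
      rw [nextCoeff_of_natDegree_pos (by rw [hnd]; omega),
        nextCoeff_of_natDegree_pos (by rw [hh.2]; omega), hnd, hh.2, coeff_add,
        coeff_eq_zero_of_degree_lt (gW_degree c s (n - 1) (by omega)), add_zero]
    have e3 : (h + gW c s).derivative.eval 0 = h.derivative.eval 0 + s * c ^ 2 := by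
      simp [gW, derivative_mul, derivative_pow]
    have e4 : (h + gW c s).derivative.eval (-c) = h.derivative.eval (-c) := by
      simp [gW, derivative_mul, derivative_pow]
    unfold lamW
    rw [e0, e1, e2, e3, e4]
    split_ifs with h0
    · simp
    · rw [← AddChar.map_add_eq_mul]
      congr 1
      push Not at h0
      have := h0.1
      have := h0.2
      field_simp
      ring
  have h1 : (Fintype.card F : ℂ) * AG (lamW ψ a c b) n =
      ∑ s : F, ∑ h ∈ Mon F n, lamW ψ a c b (h + gW c s) := by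
    unfold AG
    rw [← card_univ, ← nsmul_eq_mul, ← sum_const]
    exact sum_congr rfl fun s _ => hperm s
  have h2 : ∑ s : F, ∑ h ∈ Mon F n, lamW ψ a c b (h + gW c s) = 0 := by
    rw [sum_comm]
    apply sum_eq_zero
    intro h hh
    rw [sum_congr rfl fun s _ => hval s h hh, ← mul_sum, AddChar.sum_mulShift _ hψ]
    by_cases h0 : h.eval 0 = 0
    · unfold lamW
      rw [if_pos (Or.inl h0), zero_mul]
    · rw [if_neg, Nat.cast_zero, mul_zero]
      exact neg_ne_zero.2 (div_ne_zero (mul_ne_zero ha (pow_ne_zero _ hc)) h0)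
  rw [h2] at h1
  rcases mul_eq_zero.1 h1 with h | h
  · exfalso
    exact Fintype.card_ne_zero (α := F) (by exact_mod_cast h)
  · exact h

/-- the `L`-polynomial -/
noncomputable def LW (ψ : AddChar F ℂ) (a c b : F) : ℂ[X] :=
  ∑ n ∈ range 5, C (AG (lamW ψ a c b) n) * X ^ n

theorem LW_coeff {ψ : AddChar F ℂ} (hψ : ψ.IsPrimitive) {a c : F} (ha : a ≠ 0) (hc : c ≠ 0) (b : F) (n : ℕ) :
    (LW ψ a c b).coeff n = AG (lamW ψ a c b) n := by
  rw [LW, finsetSum_coeff]
  simp_rw [coeff_C_mul_X_pow]
  by_cases hn : n < 5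
  · rw [sum_eq_single n]
    · simp
    · intro m _ hm
      rw [if_neg (Ne.symm hm)]
    · intro h
      exact absurd (mem_range.2 hn) h
  · rw [AW_eq_zero hψ ha hc b n (by omega)]
    apply sum_eq_zero
    intro m hm
    rw [mem_range] at hm
    rw [if_neg (by omega)]

theorem LW_zero {ψ : AddChar F ℂ} (hψ : ψ.IsPrimitive) {a c : F} (ha : a ≠ 0) (hc : c ≠ 0) (b : F) :
    (LW ψ a c b).coeff 0 = 1 := by
  rw [LW_coeff hψ ha hc, AG_zero (lamW_mult ψ a c b)]

theorem LW_natDegree {ψ : AddChar F ℂ} (hψ : ψ.IsPrimitive) {a c : F} (ha : a ≠ 0) (hc : c ≠ 0) (b : F) :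
    (LW ψ a c b).natDegree ≤ 4 := by
  rw [natDegree_le_iff_coeff_eq_zero]
  intro n hn
  rw [LW_coeff hψ ha hc, AW_eq_zero hψ ha hc b n (by omega)]

theorem LW_HID {ψ : AddChar F ℂ} (hψ : ψ.IsPrimitive) {a c : F} (ha : a ≠ 0) (hc : c ≠ 0) (b : F) :
    HID (LW ψ a c b) (TG (lamW ψ a c b)) := by
  intro n
  simp_rw [LW_coeff hψ ha hc]
  exact n_mul_AG (lamW_mult ψ a c b) n

end Lam

end Pool.Agent.Y807.WB
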