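import Pool.Agent.Y807.WB.Core
import Pool.Agent.Y807.WB.Lam
import Pool.Agent.H498R2.KlMain
import Pool.Agent.Y826.Z.Defs

/-! Weil's bound for `e_p(a / x - a / (x + c) + b x)`. -/

set_option autoImplicit false
set_option linter.all false

open Polynomial Finset
open Pool.Agent.H341R2.Sharp Pool.Agent.H498R2.Kl

namespace Pool.Agent.Y807.WB

section Count
variable (p : ℕ) [Fact p.Prime]

/-- the rational function -/
noncomputable def fW {F E : Type} [Field F] [Field E] [Algebra F E] (a c b : F) (x : E) : E :=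
  algebraMap F E a * x⁻¹ - algebraMap F E a * (x + algebraMap F E c)⁻¹ + algebraMap F E b * x

open Classical in
/-- the points with a given trace -/
noncomputable def NW {F : Type} [Field F] (E : Type) [Field E] [Fintype E] [Algebra F E]
    (a c b t : F) : Finset E :=
  univ.filter (fun x : E => (x ≠ 0 ∧ x + algebraMap F E c ≠ 0) ∧ Algebra.trace F E (fW a c b x) = t)

open Classical in
theorem mem_NW {F : Type} [Field F] {E : Type} [Field E] [Fintype E] [Algebra F E]
    {a c b t : F} {x : E} : x ∈ NW E a c b t ↔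
      (x ≠ 0 ∧ x + algebraMap F E c ≠ 0) ∧ Algebra.trace F E (fW a c b x) = t := by
  unfold NW
  rw [mem_filter]
  exact and_iff_right (mem_univ _)

theorem frac_eq {K : Type*} [Field K] (a b c z : K) (hz : z ≠ 0) (hzc : z + c ≠ 0) :
    (a * c + b * z ^ 2 * (z + c)) / (z * (z + c)) = a * z⁻¹ - a * (z + c)⁻¹ + b * z := by
  field_simp
  ring

theorem count_bound (a c b : ZMod p) (ha : a ≠ 0) (hc : c ≠ 0) :
    ∃ C0 N0 : ℕ, ∀ m : ℕ, N0 ≤ m → ∀ (E : Type) [Field E] [Fintype E] [Algebra (ZMod p) E],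
      Module.finrank (ZMod p) E = m → ∀ t : ZMod p,
      p * (NW E a c b t).card ≤ p ^ m + C0 * p ^ (m - m / 2) := by
  classical
  have hpp : p.Prime := Fact.out
  let k := AlgebraicClosure (ZMod p)
  let j : ZMod p →+* k := algebraMap (ZMod p) k
  have hj : Function.Injective j := j.injective
  haveI : CharP k p := charP_of_injective_algebraMap hj p
  set num : k[X] := (C (a * c) + C b * X ^ 2 * (X + C c) : (ZMod p)[X]).map j with hnum
  set den : k[X] := (X * (X + C c) : (ZMod p)[X]).map j with hden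
  have hfix : ∀ f : (ZMod p)[X], ∀ i, (f.map j).coeff i ^ p = (f.map j).coeff i := by
    intro f i
    rw [coeff_map, ← map_pow, ZMod.pow_card]
  have hden2 : den = (X - C 0) * (X + C (j c)) := by
    rw [hden]
    simp
  have hjc : j c ≠ 0 := (_root_.map_ne_zero _).2 hc
  have hdene : ∀ z : k, den.eval z = z * (z + j c) := by
    intro z
    rw [hden2]
    simp
  have hnume : ∀ z : k, num.eval z = j a * j c + j b * z ^ 2 * (z + j c) := by
    intro z
    rw [hnum]
    simp
  obtain ⟨C0, N0, hcore⟩ := core k p num den (X + C (j c)) (hfix _) (hfix _) 0 hden2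
    (by simpa using hjc) (by
      rw [hnume]
      simp only [ne_eq, OfNat.ofNat_ne_zero, not_false_eq_true, zero_pow, mul_zero, zero_mul, add_zero]
      exact mul_ne_zero ((_root_.map_ne_zero _).2 ha) hjc)
  refine ⟨C0, N0, fun m hm E _ _ _ hE t => ?_⟩
  haveI : Module.Finite (ZMod p) E := Module.Finite.of_finite
  haveI : Algebra.IsAlgebraic (ZMod p) E := Algebra.IsAlgebraic.of_finite _ _
  let ι : E →ₐ[ZMod p] k := IsAlgClosed.lift
  have hι : Function.Injective ι := ι.toRingHom.injective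
  have hcard : Fintype.card E = p ^ m := by
    rw [Module.card_eq_pow_finrank (K := ZMod p) (V := E), ZMod.card, hE]
  have key := hcore m hm (j t) (by rw [← map_pow, ZMod.pow_card]) ((NW E a c b t).image ι) (by
    intro z hz
    rw [mem_image] at hz
    obtain ⟨x, hx, rfl⟩ := hz
    rw [mem_NW] at hx
    obtain ⟨⟨hx0, hxc⟩, htr⟩ := hx
    have hcomm : ∀ s : ZMod p, ι (algebraMap (ZMod p) E s) = j s := fun s => ι.commutes s
    have hz0 : ι x ≠ 0 := (map_ne_zero_iff _ hι).2 hx0
    have hzc : ι x + j c ≠ 0 := by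
      rw [← hcomm, ← map_add]
      exact (map_ne_zero_iff _ hι).2 hxc
    refine ⟨?_, ?_, ?_⟩
    · rw [← map_pow, ← hcard, FiniteField.pow_card]
    · rw [hdene]
      exact mul_ne_zero hz0 hzc
    · have h1 : num.eval (ι x) / den.eval (ι x) = ι (fW a c b x) := by
        rw [hnume, hdene]
        unfold fW
        rw [map_add, map_sub, map_mul, map_mul, map_mul, map_inv₀, map_inv₀, map_add, hcomm, hcomm, hcomm]
        exact frac_eq _ _ _ _ hz0 hzc
      rw [h1, ← htr]
      have h2 := FiniteField.algebraMap_trace_eq_sum_pow (ZMod p) E (fW a c b x)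
      rw [← hcomm, h2, map_sum, hE]
      apply sum_congr rfl
      intro i _
      rw [map_pow, Nat.card_zmod])
  rwa [card_image_of_injective _ hι] at key

end Count

section Sums
variable (p : ℕ) [Fact p.Prime]

theorem sum_TW (E : Type) [Field E] [Fintype E] [DecidableEq E] [Algebra (ZMod p) E]
    {ψ : AddChar (ZMod p) ℂ} (hψ : ψ.IsPrimitive) (a c b : ZMod p) (hc : c ≠ 0) :
    ∑ s ∈ univ.filter (fun s : ZMod p => s ≠ 0), TG (lamW ψ (s * a) c (s * b)) (Module.finrank (ZMod p) E) =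
      (p : ℂ) * (NW E a c b 0).card -
        ((univ.filter (fun x : E => x ≠ 0 ∧ x + algebraMap (ZMod p) E c ≠ 0)).card : ℂ) := by
  classical
  set G := univ.filter (fun x : E => x ≠ 0 ∧ x + algebraMap (ZMod p) E c ≠ 0) with hG
  have h1 : ∀ s : ZMod p, TG (lamW ψ (s * a) c (s * b)) (Module.finrank (ZMod p) E) =
      ∑ x ∈ G, ψ (s * Algebra.trace (ZMod p) E (fW a c b x)) := by
    intro s
    rw [TW_eq_sum (E := E), hG, sum_filter]
    apply sum_congr rfl
    intro x _
    by_cases h : x = 0 ∨ x + algebraMap (ZMod p) E c = 0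
    · rw [if_pos h, if_neg]
      tauto
    · rw [if_neg h, if_pos (by tauto)]
      congr 1
      have e1 : s * Algebra.trace (ZMod p) E (fW a c b x) =
          Algebra.trace (ZMod p) E (algebraMap (ZMod p) E s * fW a c b x) := by
        rw [← Algebra.smul_def, map_smul, smul_eq_mul]
      rw [e1]
      congr 1
      unfold fW
      rw [map_mul, map_mul]
      ring
  have h2 : ∑ s : ZMod p, TG (lamW ψ (s * a) c (s * b)) (Module.finrank (ZMod p) E) =
      (p : ℂ) * (NW E a c b 0).card := by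
    simp_rw [h1]
    rw [sum_comm]
    simp_rw [AddChar.sum_mulShift _ hψ]
    have e2 : ((NW E a c b 0).card : ℂ) = ∑ x : E, if ((x ≠ 0 ∧ x + algebraMap (ZMod p) E c ≠ 0) ∧
        Algebra.trace (ZMod p) E (fW a c b x) = 0) then (1 : ℂ) else 0 := by
      rw [← sum_filter, sum_const, nsmul_eq_mul, mul_one]
      congr 2
      ext x
      rw [mem_NW, mem_filter]
      exact (and_iff_right (mem_univ _)).symm
    rw [e2, hG, sum_filter]
    rw [mul_sum]
    apply sum_congr rfl
    intro x _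
    rw [ZMod.card]
    by_cases h : x ≠ 0 ∧ x + algebraMap (ZMod p) E c ≠ 0
    · rw [if_pos h]
      by_cases h' : Algebra.trace (ZMod p) E (fW a c b x) = 0
      · rw [if_pos h', if_pos ⟨h, h'⟩, mul_one]
      · rw [if_neg h', if_neg (fun hh => h' hh.2), mul_zero, Nat.cast_zero]
    · rw [if_neg h, if_neg (fun hh => h hh.1), mul_zero]
  have h3 : TG (lamW ψ (0 * a) c (0 * b)) (Module.finrank (ZMod p) E) = (G.card : ℂ) := by
    rw [h1 0]
    simp
  have h4 : ∑ s : ZMod p, TG (lamW ψ (s * a) c (s * b)) (Module.finrank (ZMod p) E) =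
      ∑ s ∈ univ.filter (fun s : ZMod p => s ≠ 0), TG (lamW ψ (s * a) c (s * b)) (Module.finrank (ZMod p) E) +
        TG (lamW ψ (0 * a) c (0 * b)) (Module.finrank (ZMod p) E) := by
    rw [← sum_filter_add_sum_filter_not univ (fun s : ZMod p => s ≠ 0)]
    congr 1
    have : (univ.filter fun s : ZMod p => ¬ s ≠ 0) = {0} := by
      ext s
      simp
    rw [this, sum_singleton]
  rw [h4, h3] at h2
  rw [← h2]
  ring

theorem card_good (E : Type) [Field E] [Fintype E] [DecidableEq E] [Algebra (ZMod p) E] (c : ZMod p) :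
    (univ.filter (fun x : E => x ≠ 0 ∧ x + algebraMap (ZMod p) E c ≠ 0)).card ≤ Fintype.card E ∧
    Fintype.card E ≤ (univ.filter (fun x : E => x ≠ 0 ∧ x + algebraMap (ZMod p) E c ≠ 0)).card + 2 := by
  classical
  constructor
  · exact card_le_univ _
  · have h1 : (univ : Finset E) ⊆
        (univ.filter (fun x : E => x ≠ 0 ∧ x + algebraMap (ZMod p) E c ≠ 0)) ∪
          {0, - algebraMap (ZMod p) E c} := by
      intro x _
      rw [mem_union, mem_filter, mem_insert, mem_singleton]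
      by_cases h0 : x = 0
      · right; left; exact h0
      by_cases h1 : x + algebraMap (ZMod p) E c = 0
      · right; right; exact eq_neg_of_add_eq_zero_left h1
      · left; exact ⟨mem_univ _, h0, h1⟩
    have h2 := card_le_card h1
    rw [card_univ] at h2
    refine h2.trans ((card_union_le _ _).trans ?_)
    have := card_le_two (a := (0 : E)) (b := - algebraMap (ZMod p) E c)
    omega

theorem count_two_sided (a c b : ZMod p) (ha : a ≠ 0) (hc : c ≠ 0) :
    ∃ C1 : ℝ, 0 ≤ C1 ∧ ∀ m : ℕ, 1 ≤ m → ∀ (E : Type) [Field E] [Fintype E] [DecidableEq E] [Algebra (ZMod p) E],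
      Module.finrank (ZMod p) E = m →
      |(p : ℝ) * (NW E a c b 0).card -
        ((univ.filter (fun x : E => x ≠ 0 ∧ x + algebraMap (ZMod p) E c ≠ 0)).card : ℝ)| ≤
        C1 * (Real.sqrt p) ^ m := by
  classical
  have hpp : p.Prime := Fact.out
  obtain ⟨C0, N0, hcb⟩ := count_bound p a c b ha hc
  have hp1 : (1 : ℝ) ≤ p := by exact_mod_cast hpp.one_le
  have hs1 : 1 ≤ Real.sqrt p := by rwa [Real.one_le_sqrt]
  have hss : Real.sqrt p * Real.sqrt p = p := Real.mul_self_sqrt (by positivity)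
  refine ⟨(p : ℝ) * (p : ℝ) ^ N0 + p * (C0 + 2) * Real.sqrt p, by positivity, ?_⟩
  intro m hm E _ _ _ _ hE
  have hcard : Fintype.card E = p ^ m := by
    rw [Module.card_eq_pow_finrank (K := ZMod p) (V := E), ZMod.card, hE]
  obtain ⟨hg1, hg2⟩ := card_good p E c
  rw [hcard] at hg1 hg2
  set G := univ.filter (fun x : E => x ≠ 0 ∧ x + algebraMap (ZMod p) E c ≠ 0) with hG
  have hN : ∀ t : ZMod p, NW E a c b t = G.filter (fun x => Algebra.trace (ZMod p) E (fW a c b x) = t) := by
    intro t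
    ext x
    rw [mem_NW, hG, mem_filter, mem_filter, and_iff_right (mem_univ x)]
  have hNG : (NW E a c b 0).card ≤ G.card := by
    rw [hN]
    exact card_filter_le _ _
  have hsq : Real.sqrt p ^ m * Real.sqrt p ^ m = (p : ℝ) ^ m := by
    rw [← mul_pow, hss]
  have hsm : 1 ≤ Real.sqrt p ^ m := one_le_pow₀ hs1
  by_cases hmN : N0 ≤ m
  · -- large `m`
    have hb : ∀ t : ZMod p, (p : ℝ) * (NW E a c b t).card ≤ (p : ℝ) ^ m + C0 * (p : ℝ) ^ (m - m / 2) := by
      intro t
      exact_mod_cast hcb m hmN E hE t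
    have hsum : ∑ t : ZMod p, ((NW E a c b t).card : ℝ) = G.card := by
      have h1 : G.card = ∑ t : ZMod p, (NW E a c b t).card := by
        rw [card_eq_sum_card_fiberwise (f := fun x => Algebra.trace (ZMod p) E (fW a c b x))
          (t := univ) (fun _ _ => mem_univ _)]
        exact sum_congr rfl fun t _ => by rw [hN]
      rw [h1]
      push_cast
      rfl
    have hpw : (p : ℝ) ^ (m - m / 2) ≤ Real.sqrt p * Real.sqrt p ^ m := by
      have h1 : (p : ℝ) ^ (m - m / 2) = Real.sqrt p ^ (2 * (m - m / 2)) := by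
        rw [pow_mul, sq, hss]
      rw [h1, ← pow_succ']
      exact pow_le_pow_right₀ hs1 (by omega)
    have hupper : (p : ℝ) * (NW E a c b 0).card - G.card ≤ C0 * (p : ℝ) ^ (m - m / 2) + 2 := by
      have h1 := hb 0
      have h2 : (p : ℝ) ^ m ≤ G.card + 2 := by exact_mod_cast hg2
      linarith
    have hlower : -(((p : ℝ) - 1) * (C0 * (p : ℝ) ^ (m - m / 2) + 2)) ≤ (p : ℝ) * (NW E a c b 0).card - G.card := by
      have h1 : ∑ t ∈ univ.erase (0 : ZMod p), (p : ℝ) * ((NW E a c b t).card : ℝ) ≤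
          ((p : ℝ) - 1) * ((p : ℝ) ^ m + C0 * (p : ℝ) ^ (m - m / 2)) := by
        refine (sum_le_card_nsmul _ _ _ fun t _ => hb t).trans ?_
        rw [card_erase_of_mem (mem_univ _), card_univ, ZMod.card, nsmul_eq_mul,
          Nat.cast_sub hpp.one_le, Nat.cast_one]
      have h2 : (p : ℝ) * (NW E a c b 0).card + ∑ t ∈ univ.erase (0 : ZMod p), (p : ℝ) * ((NW E a c b t).card : ℝ) =
          p * G.card := by
        rw [add_sum_erase univ (fun t => (p : ℝ) * ((NW E a c b t).card : ℝ)) (mem_univ (0 : ZMod p)),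
          ← mul_sum, hsum]
      have h3 : (p : ℝ) ^ m ≤ G.card + 2 := by exact_mod_cast hg2
      have h4 : 0 ≤ (p : ℝ) - 1 := by linarith
      nlinarith
    have h5 : 0 ≤ C0 * (p : ℝ) ^ (m - m / 2) + 2 := by positivity
    have h6 : |(p : ℝ) * (NW E a c b 0).card - G.card| ≤ p * (C0 * (p : ℝ) ^ (m - m / 2) + 2) := by
      rw [abs_le]
      constructor
      · nlinarith
      · nlinarith
    refine h6.trans ?_
    have h7 : C0 * (p : ℝ) ^ (m - m / 2) + 2 ≤ (C0 + 2) * (Real.sqrt p * Real.sqrt p ^ m) := by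
      have h8 : (1 : ℝ) ≤ Real.sqrt p * Real.sqrt p ^ m := by nlinarith
      have h9 : (0 : ℝ) ≤ C0 := by positivity
      nlinarith
    have h10 : (0 : ℝ) ≤ (p : ℝ) * (p : ℝ) ^ N0 * Real.sqrt p ^ m := by positivity
    nlinarith
  · -- small `m`
    push Not at hmN
    have h1 : |(p : ℝ) * (NW E a c b 0).card - G.card| ≤ p * G.card := by
      have h2 : ((NW E a c b 0).card : ℝ) ≤ G.card := by exact_mod_cast hNG
      have h3 : (0 : ℝ) ≤ (NW E a c b 0).card := by positivity
      have h4 : (0 : ℝ) ≤ G.card := by positivity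
      rw [abs_le]
      constructor
      · nlinarith
      · nlinarith
    have h2 : (G.card : ℝ) ≤ (p : ℝ) ^ m := by exact_mod_cast hg1
    have h3 : (p : ℝ) ^ m ≤ (p : ℝ) ^ N0 := pow_le_pow_right₀ hp1 hmN.le
    have h4 : (p : ℝ) * G.card ≤ (p : ℝ) * (p : ℝ) ^ N0 * Real.sqrt p ^ m := by
      have h5 : (0 : ℝ) ≤ (p : ℝ) * (p : ℝ) ^ N0 := by positivity
      calc (p : ℝ) * G.card ≤ p * (p : ℝ) ^ N0 := by nlinarith
        _ ≤ _ := le_mul_of_one_le_right h5 hsm
    have h6 : (0 : ℝ) ≤ p * (C0 + 2) * Real.sqrt p * Real.sqrt p ^ m := by positivity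
    nlinarith

theorem sum_TG_bound (a c b : ZMod p) (ha : a ≠ 0) (hc : c ≠ 0)
    {ψ : AddChar (ZMod p) ℂ} (hψ : ψ.IsPrimitive) :
    ∃ C1 : ℝ, 0 ≤ C1 ∧ ∀ m : ℕ, 1 ≤ m →
    ‖∑ s ∈ univ.filter (fun s : ZMod p => s ≠ 0), TG (lamW ψ (s * a) c (s * b)) m‖ ≤
      C1 * (Real.sqrt p) ^ m := by
  classical
  obtain ⟨C1, hC1, h⟩ := count_two_sided p a c b ha hc
  refine ⟨C1, hC1, fun m hm => ?_⟩
  obtain ⟨E, _, _, _, hfr⟩ : ∃ (E : Type) (_ : Field E) (_ : Fintype E) (_ : Algebra (ZMod p) E),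
      Module.finrank (ZMod p) E = m :=
    ⟨GaloisField p m, inferInstance, Fintype.ofFinite _, inferInstance, GaloisField.finrank p (by omega)⟩
  have h1 := sum_TW p E hψ a c b hc
  rw [hfr] at h1
  rw [h1]
  have h2 := h m hm E hfr
  rw [← Real.norm_eq_abs, ← Complex.norm_real] at h2
  push_cast at h2
  exact h2

/-- **Weil's bound** for `e_p(a / x - a / (x + c) + b x)`, with the constant 4. -/
theorem weil_le (a c b : ZMod p) (ha : a ≠ 0) (hc : c ≠ 0)
    {ψ : AddChar (ZMod p) ℂ} (hψ : ψ.IsPrimitive) :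
    ‖∑ x : ZMod p, (if x = 0 ∨ x + c = 0 then (0 : ℂ) else ψ (a * x⁻¹ - a * (x + c)⁻¹ + b * x))‖ ≤
      4 * Real.sqrt p := by
  classical
  have hpp : p.Prime := Fact.out
  have hq0 : 0 < Real.sqrt p := Real.sqrt_pos.2 (by exact_mod_cast hpp.pos)
  set s := univ.filter (fun s : ZMod p => s ≠ 0) with hs
  set A : ℂ[X] := ∏ t ∈ s, LW ψ (t * a) c (t * b) with hA
  have ht : ∀ t ∈ s, t * a ≠ 0 := by
    intro t ht
    rw [hs, mem_filter] at ht
    exact mul_ne_zero ht.2 ha
  have hid : HID A (fun m => ∑ t ∈ s, TG (lamW ψ (t * a) c (t * b)) m) :=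
    HID.prod s _ _ fun t hts => LW_HID hψ (ht t hts) hc _
  have hA0 : A.coeff 0 = 1 := by
    rw [hA, coeff_zero_prod]
    exact prod_eq_one fun t hts => LW_zero hψ (ht t hts) hc _
  obtain ⟨C1, hC1, hbound⟩ := sum_TG_bound p a c b ha hc hψ
  have hroot : ∀ z : ℂ, (LW ψ a c b).eval z = 0 → 1 ≤ Real.sqrt p * ‖z‖ := by
    intro z hz
    apply root_norm A hA0 (fun m => ∑ t ∈ s, TG (lamW ψ (t * a) c (t * b)) m)
      (Real.sqrt p) C1 hq0 hC1
    · intro m hm
      exact hbound m hm
    · exact hid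
    · rw [hA, eval_prod]
      apply prod_eq_zero (i := (1 : ZMod p))
      · rw [hs, mem_filter]
        exact ⟨mem_univ _, one_ne_zero⟩
      · rw [one_mul, one_mul]
        exact hz
  have h1 := coeff_one_le (LW ψ a c b) (LW_zero hψ ha hc b) _ hq0 hroot 4 (LW_natDegree hψ ha hc b)
  have h2 : (LW ψ a c b).coeff 1 =
      ∑ x : ZMod p, (if x = 0 ∨ x + c = 0 then (0 : ℂ) else ψ (a * x⁻¹ - a * (x + c)⁻¹ + b * x)) := by
    have h3 := LW_HID hψ ha hc b 1
    rw [Icc_self, sum_singleton, Nat.sub_self, LW_zero hψ ha hc, one_mul, Nat.cast_one,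
      one_mul] at h3
    rw [h3]
    have h4 := TW_eq_sum (F := ZMod p) (E := ZMod p) ψ a c b
    rw [Module.finrank_self] at h4
    rw [h4]
    apply sum_congr rfl
    intro x _
    simp
  rw [h2] at h1
  exact_mod_cast h1

end Sums

theorem weil : Pool.Agent.Y826.Z.S_WEIL := by
  refine ⟨4, by norm_num, ?_⟩
  intro p hp A c B hA hc
  have h := weil_le p A c B hA hc (ZMod.isPrimitive_stdAddChar p)
  exact h

end Pool.Agent.Y807.WB
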