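import Pool.Agent.W493.MX.B
import Pool.Agent.W493.MX.E
import Pool.Agent.H341R2.WeilSharp

/-! Weil bound for additive characters: the Artin-Schreier extension of `k(x)`. -/

set_option autoImplicit false
set_option linter.all false
set_option linter.overlappingInstances false

open Module FF Pool.Agent.H525R3.FFp Pool.Agent.W132.AG Polynomial
open Pool.Agent.W493.MX

namespace Pool.Agent.Y807.WB

/-- elements fixed by the `p`-power map are natural numbers -/
theorem fix_nat {E : Type*} [Field E] (p : ℕ) [Fact p.Prime] [CharP E p] {u : E} (hu : u ^ p = u) :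
    ∃ j : ℕ, u = (j : E) := by
  letI : Algebra (ZMod p) E := ZMod.algebra E p
  have h1 : (X ^ Fintype.card (ZMod p) - X : (ZMod p)[X]).Splits := by
    rw [splits_iff_card_roots, FiniteField.roots_X_pow_card_sub_X,
      FiniteField.X_pow_card_sub_X_natDegree_eq _ Fintype.one_lt_card]
    rfl
  have h2 : (X ^ Fintype.card (ZMod p) - X : (ZMod p)[X]) ≠ 0 :=
    FiniteField.X_pow_card_sub_X_ne_zero _ Fintype.one_lt_card
  have h3 : ((X ^ Fintype.card (ZMod p) - X : (ZMod p)[X]).map (algebraMap (ZMod p) E)).IsRoot u := by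
    rw [ZMod.card]
    simp [hu]
  obtain ⟨c, hc⟩ := h1.mem_range_of_isRoot h2 h3
  refine ⟨c.val, ?_⟩
  rw [← hc, ← map_natCast (algebraMap (ZMod p) E), ZMod.natCast_zmod_val]

/-- the ring homomorphism `cE` -/
noncomputable def cH (k : Type) [Field k] (E : Type) [Field E] [Algebra (RatFunc k) E] : k[X] →+* E :=
  (algebraMap (RatFunc k) E).comp (algebraMap k[X] (RatFunc k))

theorem cE_eq {k : Type} [Field k] (E : Type) [Field E] [Algebra (RatFunc k) E] (f : k[X]) :
    cE E f = cH k E f := rfl

theorem cH_inj (k : Type) [Field k] (E : Type) [Field E] [Algebra (RatFunc k) E] :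
    Function.Injective (cH k E) := by
  unfold cH
  rw [RingHom.coe_comp]
  exact (algebraMap (RatFunc k) E).injective.comp (IsFractionRing.injective k[X] (RatFunc k))

theorem cH_C {k : Type} [Field k] (E : Type) [Field E] [Algebra k E] [Algebra (RatFunc k) E]
    [IsScalarTower k (RatFunc k) E] (c : k) : cH k E (C c) = algebraMap k E c := by
  unfold cH
  rw [RingHom.comp_apply, IsScalarTower.algebraMap_apply k (RatFunc k) E]
  rfl

theorem exists_ext (k : Type) [Field k] [IsAlgClosed k] (p : ℕ) [Fact p.Prime] [CharP k p]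
    (num den : k[X]) (hnum : ∀ i, num.coeff i ^ p = num.coeff i)
    (hden : ∀ i, den.coeff i ^ p = den.coeff i) (hd0 : den ≠ 0) :
    ∃ (E : Type) (_ : Field E) (_ : Algebra k E) (_ : Algebra (RatFunc k) E)
      (_ : IsScalarTower k (RatFunc k) E) (_ : FiniteDimensional (RatFunc k) E)
      (_ : IsGalois (RatFunc k) E) (_ : IsFF k E) (Φ : E ≃+* E) (y : E),
      (∀ c : k, Φ (algebraMap k E c) = algebraMap k E (c ^ p)) ∧
      (∀ f : k[X], (∀ i, f.coeff i ^ p = f.coeff i) → Φ (cH k E f) = cH k E f) ∧
      cH k E den * (y ^ p - y) = cH k E num ∧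
      (∀ σ τ : E ≃ₐ[RatFunc k] E, σ y = τ y → σ = τ) := by
  classical
  have hpp : p.Prime := Fact.out
  let K := RatFunc k
  have hperf : PerfectRing k p := inferInstance
  let fr : k ≃+* k := iterateFrobeniusEquiv k p 1
  have hfr : ∀ x, fr x = x ^ p := fun x => by
    change x ^ p ^ 1 = x ^ p
    rw [pow_one]
  let φ : K ≃+* K := IsFractionRing.ringEquivOfRingEquiv (Polynomial.mapEquiv fr)
  have hφ : ∀ f : k[X], φ (algebraMap k[X] K f) = algebraMap k[X] K (f.map (fr : k →+* k)) := by
    intro f
    exact IsFractionRing.ringEquivOfRingEquiv_algebraMap _ f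
  have hfix : ∀ f : k[X], (∀ i, f.coeff i ^ p = f.coeff i) → f.map (fr : k →+* k) = f := by
    intro f hf
    ext i
    rw [Polynomial.coeff_map]
    exact (hfr _).trans (hf i)
  let f : K := algebraMap k[X] K num / algebraMap k[X] K den
  have hφf : φ f = f := by
    change φ (algebraMap k[X] K num / algebraMap k[X] K den) = _
    rw [map_div₀, hφ, hφ, hfix _ hnum, hfix _ hden]
  let L : K[X] := X ^ p - X - C f
  have hLφ : L.map (φ : K →+* K) = L := by
    change (X ^ p - X - C f : K[X]).map (φ : K →+* K) = _
    rw [Polynomial.map_sub, Polynomial.map_sub, Polynomial.map_pow, Polynomial.map_X, Polynomial.map_C]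
    change X ^ p - X - C (φ f) = _
    rw [hφf]
  have hcharK : CharP K p := charP_of_injective_algebraMap (algebraMap k K).injective p
  have hder : L.derivative = -1 := by
    change (X ^ p - X - C f : K[X]).derivative = _
    rw [derivative_sub, derivative_sub, derivative_X_pow, derivative_X, derivative_C]
    have : ((p : ℕ) : K) = 0 := CharP.cast_eq_zero K p
    rw [this]
    simp
  have hsep : L.Separable := by
    rw [Polynomial.separable_def, hder]
    refine ⟨0, -1, ?_⟩
    ring
  have hdeg : L.natDegree = p := by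
    change (X ^ p - X - C f : K[X]).natDegree = p
    have h1 : (X ^ p - X - C f : K[X]) = X ^ p - (X + C f) := by ring
    rw [h1]
    have h2 : (X + C f : K[X]).natDegree < (X ^ p : K[X]).natDegree := by
      rw [natDegree_X_add_C, natDegree_X_pow]
      exact hpp.one_lt
    rw [natDegree_sub_eq_left_of_natDegree_lt h2, natDegree_X_pow]
  let E := L.SplittingField
  have hFF : IsFF k K := isFF_base (x := (RatFunc.X : RatFunc k)) RatFunc.transcendental_X
    RatFunc.adjoin_X
  have hFFE : IsFF k E := isFF_of_ext (F := K)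
  have hGal : IsGalois K E := IsGalois.of_separable_splitting_field hsep
  obtain ⟨Φ, hΦ⟩ := exists_twist (E := E) L φ hLφ
  have hL0 : L ≠ 0 := hsep.ne_zero
  have hcomm : ∀ c : k, Φ (algebraMap k E c) = algebraMap k E (c ^ p) := by
    intro c
    have h1 : ∀ c : k, algebraMap k K c = algebraMap k[X] K (C c) := fun c => rfl
    rw [IsScalarTower.algebraMap_apply k K E, hΦ, h1, hφ, Polynomial.map_C,
      IsScalarTower.algebraMap_apply k K E, h1]
    congr 3
    exact hfr c
  have hcharE : CharP E p := charP_of_injective_algebraMap (algebraMap K E).injective p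
  obtain ⟨y, hy⟩ : ∃ y : E, y ^ p - y = algebraMap K E f := by
    have hs : (L.map (algebraMap K E)).Splits := IsSplittingField.splits E L
    obtain ⟨y, hy⟩ := hs.exists_eval_eq_zero (by
      rw [degree_map]
      rw [degree_eq_natDegree hL0, hdeg]
      exact_mod_cast hpp.ne_zero)
    refine ⟨y, ?_⟩
    change ((X ^ p - X - C f : K[X]).map (algebraMap K E)).eval y = 0 at hy
    rw [Polynomial.map_sub, Polynomial.map_sub, Polynomial.map_pow, Polynomial.map_X,
      Polynomial.map_C] at hy
    simp only [eval_sub, eval_pow, eval_X, eval_C] at hy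
    exact sub_eq_zero.1 hy
  refine ⟨E, inferInstance, inferInstance, inferInstance, inferInstance, inferInstance, hGal,
    hFFE, Φ, y, hcomm, ?_, ?_, ?_⟩
  · intro f hf
    change Φ (algebraMap K E (algebraMap k[X] K f)) = algebraMap K E (algebraMap k[X] K f)
    rw [hΦ, hφ, hfix f hf]
  · rw [hy]
    change algebraMap K E (algebraMap k[X] K den) * algebraMap K E (algebraMap k[X] K num / algebraMap k[X] K den) =
      algebraMap K E (algebraMap k[X] K num)
    rw [← map_mul]
    have : algebraMap k[X] K den ≠ 0 := by
      rw [map_ne_zero_iff _ (IsFractionRing.injective k[X] K)]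
      exact hd0
    rw [mul_div_cancel₀ _ this]
  · intro σ τ hστ
    have h1 : Algebra.adjoin K (L.rootSet E) = ⊤ := IsSplittingField.adjoin_rootSet E L
    have h2 : (σ : E →ₐ[K] E) = (τ : E →ₐ[K] E) := by
      refine AlgHom.ext_of_adjoin_eq_top h1 ?_
      intro v hv
      rw [mem_rootSet] at hv
      have hv2 : v ^ p - v = algebraMap K E f := by
        have h3 := hv.2
        change aeval v (X ^ p - X - C f : K[X]) = 0 at h3
        simp only [map_sub, map_pow, aeval_X, aeval_C] at h3
        exact sub_eq_zero.1 h3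
      have h4 : (v - y) ^ p = v - y := by
        rw [sub_pow_char]
        linear_combination hv2 - hy
      obtain ⟨j, hj⟩ := fix_nat p h4
      have hv3 : v = y + (j : E) := by rw [← hj]; ring
      change σ v = τ v
      rw [hv3, map_add, map_add, map_natCast, map_natCast, hστ]
    ext z
    exact DFunLike.congr_fun h2 z

end Pool.Agent.Y807.WB
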